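import Pool.Agent.V7H41.CC.Spec

/-!
# Minimum common convex partition counts of caterpillars: the estimate of the average
-/

set_option autoImplicit false

open Finset Pool.Agent.V7H41.CC

namespace Pool.Agent.V7H84.CC

/-- a sequence with increasing quotients is at most the maximum of its values at the ends -/
theorem max_lem (f ρ : ℕ → ℝ) (lo hi : ℕ) (hf : ∀ j, 0 < f j)
    (h1 : ∀ j, lo ≤ j → j < hi → f (j + 1) = ρ j * f j)
    (h2 : ∀ i j, lo ≤ i → i ≤ j → j < hi → ρ i ≤ ρ j) :
    ∀ b, lo ≤ b → b ≤ hi → f b ≤ max (f lo) (f hi) := by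
  have P : ∀ b, lo ≤ b → b ≤ hi → (f b ≤ f lo ∨ ∀ j, b ≤ j → j < hi → f j ≤ f (j + 1)) := by
    intro b hb
    induction b, hb using Nat.le_induction with
    | base => intro _; exact Or.inl le_rfl
    | succ b hb ih =>
      intro hbhi
      rcases le_or_gt (ρ b) 1 with h | h
      · have h3 : f (b + 1) ≤ f b := by
          rw [h1 b hb (by omega)]
          nlinarith [hf b]
        rcases ih (by omega) with h4 | h4
        · exact Or.inl (h3.trans h4)
        · exact Or.inr fun j hj hj2 => h4 j (by omega) hj2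
      · refine Or.inr fun j hj hj2 => ?_
        have h5 := h2 b j hb (by omega) hj2
        rw [h1 j (by omega) hj2]
        nlinarith [hf j]
  intro b hb hbhi
  rcases P b hb hbhi with h | h
  · exact le_max_of_le_left h
  · refine le_max_of_le_right ?_
    have h7 : ∀ k, b ≤ k → k ≤ hi → f b ≤ f k := by
      intro k hk
      induction k, hk using Nat.le_induction with
      | base => intro _; exact le_rfl
      | succ k hk ih => intro h6; exact (ih (by omega)).trans (h k hk (by omega))
    exact h7 hi hbhi le_rfl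

theorem log_fact_ge (k : ℕ) : (k : ℝ) * Real.log k - k ≤ Real.log (k.factorial) := by
  rcases Nat.eq_zero_or_pos k with rfl | hk
  · simp
  have h := Real.pow_div_factorial_le_exp (k : ℝ) (Nat.cast_nonneg k) k
  have hk' : (0 : ℝ) < k := by exact_mod_cast hk
  have hf : (0 : ℝ) < k.factorial := by positivity
  have h2 := Real.log_le_log (by positivity) h
  rw [Real.log_exp, Real.log_div (by positivity) hf.ne', Real.log_pow] at h2
  linarith

theorem log_fact_le (k : ℕ) (hk : 1 ≤ k) :
    Real.log k.factorial ≤ k * Real.log k - k + Real.log k + 1 := by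
  induction k, hk using Nat.le_induction with
  | base => simp
  | succ k hk ih =>
    have hk' : (0 : ℝ) < k := by exact_mod_cast hk
    rw [Nat.factorial_succ]
    push_cast
    rw [Real.log_mul (by positivity) (by positivity)]
    have h1 : 1 / ((k : ℝ) + 1) ≤ Real.log ((k : ℝ) + 1) - Real.log k := by
      rw [← Real.log_div (by positivity) (by positivity)]
      have h2 := Real.one_sub_inv_le_log_of_pos (show (0 : ℝ) < ((k : ℝ) + 1) / k by positivity)
      have h3 : 1 - (((k : ℝ) + 1) / k)⁻¹ = 1 / ((k : ℝ) + 1) := by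
        field_simp
        ring
      rw [h3] at h2
      exact h2
    have h4 : 1 ≤ ((k : ℝ) + 1) * (Real.log ((k : ℝ) + 1) - Real.log k) := by
      have := mul_le_mul_of_nonneg_left h1 (show (0 : ℝ) ≤ (k : ℝ) + 1 by positivity)
      rwa [mul_one_div_cancel (by positivity)] at this
    nlinarith

theorem W_le (m r : ℕ) (y : ℝ) (hy : 0 < y) :
    (W m r : ℝ) ≤ y ^ m * (∑ b ∈ Icc 1 m, ((b + 1).factorial : ℝ) / y ^ b) ^ r := by
  unfold W
  push_cast
  have h1 : (∑ b ∈ Icc 1 m, ((b + 1).factorial : ℝ) / y ^ b) ^ r =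
      ∑ p ∈ Fintype.piFinset (fun _ : Fin r => Icc 1 m),
        ∏ i, (((p i + 1).factorial : ℝ) / y ^ (p i)) := by
    rw [← Finset.prod_univ_sum (fun _ : Fin r => Icc 1 m)
      (fun _ b => ((b + 1).factorial : ℝ) / y ^ b)]
    simp
  rw [h1, Finset.mul_sum]
  refine le_trans ?_ (Finset.sum_le_sum_of_subset_of_nonneg (s := (Finset.piAntidiag
    (univ : Finset (Fin r)) m).filter (fun b => ∀ i, 1 ≤ b i)) ?_ ?_)
  · refine Finset.sum_le_sum fun b hb => ?_
    rw [Finset.mem_filter, Finset.mem_piAntidiag] at hb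
    rw [Finset.prod_div_distrib, Finset.prod_pow_eq_pow_sum, hb.1.1]
    rw [mul_div_cancel₀]
    positivity
  · intro b hb
    rw [Finset.mem_filter, Finset.mem_piAntidiag] at hb
    rw [Fintype.mem_piFinset]
    intro i
    rw [Finset.mem_Icc]
    refine ⟨hb.2 i, ?_⟩
    rw [← hb.1.1]
    exact Finset.single_le_sum (f := b) (fun _ _ => Nat.zero_le _) (Finset.mem_univ i)
  · intro b _ _
    positivity

theorem S_le : ∃ m₀ : ℕ, 3 ≤ m₀ ∧ ∀ m : ℕ, m₀ ≤ m → ∀ y : ℝ,
    y = (1 + 1 / 20000) * m / Real.exp 1 →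
    ∑ b ∈ Icc 1 m, ((b + 1).factorial : ℝ) / y ^ b ≤ 2 / y * (1 + 120 / m) := by
  have h0 : (1 : ℝ) < 1 + 1 / 20000 := by norm_num
  have h1 := tendsto_pow_const_div_const_pow_of_one_lt 6 h0
  obtain ⟨m₀, hm₀⟩ := Filter.eventually_atTop.1 (h1.eventually (gt_mem_nhds (show (0 : ℝ) < 1 by norm_num)))
  refine ⟨max m₀ 3, le_max_right _ _, fun m hm y hy => ?_⟩
  have hm3 : 3 ≤ m := (le_max_right _ _).trans hm
  have hmR : (3 : ℝ) ≤ m := by exact_mod_cast hm3
  have hmpos : (0 : ℝ) < m := by linarith
  have he : (0 : ℝ) < Real.exp 1 := Real.exp_pos 1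
  have he1 := Real.exp_one_lt_d9
  have he2 := Real.exp_one_gt_d9
  have hy0 : 0 < y := by rw [hy]; positivity
  have hylow : (m : ℝ) / 3 ≤ y := by
    rw [hy, div_le_div_iff₀ (by norm_num) he]
    nlinarith
  have hyup : y ≤ m := by
    rw [hy, div_le_iff₀ he]
    nlinarith
  have h2 := hm₀ m ((le_max_left _ _).trans hm)
  rw [div_lt_one (by positivity)] at h2
  obtain ⟨A, hA⟩ : ∃ A : ℕ → ℝ, A = fun b => ((b + 1).factorial : ℝ) / y ^ b := ⟨_, rfl⟩
  have hApos : ∀ b, 0 < A b := by
    intro b
    rw [hA]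
    positivity
  have hlogy : Real.log y = Real.log (1 + 1 / 20000) + Real.log m - 1 := by
    rw [hy, Real.log_div (by positivity) he.ne', Real.log_mul (by norm_num) hmpos.ne', Real.log_exp]
  have hAm : A m ≤ 6 / (m : ℝ) ^ 4 := by
    have e1 : Real.log (A m) ≤ Real.log (6 / (m : ℝ) ^ 4) := by
      have e2 : Real.log (A m) = Real.log ((m : ℝ) + 1) + Real.log m.factorial - m * Real.log y := by
        rw [hA]
        simp only
        rw [Nat.factorial_succ, Real.log_div (by positivity) (by positivity), Nat.cast_mul,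
          Real.log_mul (by positivity) (by positivity), Real.log_pow]
        push_cast
        ring
      have e3 := log_fact_le m (by omega)
      have e4 : 6 * Real.log m ≤ m * Real.log (1 + 1 / 20000) := by
        have := Real.log_le_log (by positivity) h2.le
        rw [Real.log_pow, Real.log_pow] at this
        push_cast at this
        exact this
      have e5 : Real.log ((m : ℝ) + 1) ≤ Real.log 2 + Real.log m := by
        rw [← Real.log_mul (by norm_num) hmpos.ne']
        exact Real.log_le_log (by positivity) (by linarith)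
      have e6 : Real.log 2 + 1 ≤ Real.log 6 := by
        have e7 : Real.log 2 + 1 = Real.log (2 * Real.exp 1) := by
          rw [Real.log_mul (by norm_num) he.ne', Real.log_exp]
        rw [e7]
        exact Real.log_le_log (by positivity) (by linarith)
      rw [Real.log_div (by norm_num) (by positivity), Real.log_pow, e2, hlogy]
      push_cast
      nlinarith
    exact (Real.log_le_log_iff (hApos m) (by positivity)).1 e1
  have hAb : ∀ b, 3 ≤ b → b ≤ m → A b ≤ A 3 + A m := by
    intro b hb hbm
    refine (max_lem A (fun j => ((j : ℝ) + 2) / y) 3 m hApos ?_ ?_ b hb hbm).trans ?_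
    · intro j _ _
      rw [hA]
      simp only
      rw [Nat.factorial_succ (j + 1), pow_succ]
      push_cast
      field_simp
      ring
    · intro i j _ hij _
      have : (i : ℝ) ≤ j := by exact_mod_cast hij
      exact div_le_div_of_nonneg_right (by linarith) hy0.le
    · exact max_le (by linarith [hApos m]) (by linarith [hApos 3])
  have hsum : ∑ b ∈ Icc 1 m, A b ≤ A 1 + A 2 + m * (A 3 + A m) := by
    have e1 : ∑ b ∈ Icc 1 m, A b ≤ ∑ b ∈ Icc 1 m,
        ((if b = 1 then A 1 else 0) + (if b = 2 then A 2 else 0) + (A 3 + A m)) := by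
      refine Finset.sum_le_sum fun b hb => ?_
      rw [Finset.mem_Icc] at hb
      have g3 := hApos 3
      have gm := hApos m
      rcases (show b = 1 ∨ b = 2 ∨ 3 ≤ b by omega) with h | h | h
      · subst h
        simp
        linarith
      · subst h
        simp
        linarith
      · have g1 : ¬ b = 1 := by omega
        have g2 : ¬ b = 2 := by omega
        rw [if_neg g1, if_neg g2]
        linarith [hAb b h hb.2]
    refine e1.trans ?_
    rw [Finset.sum_add_distrib, Finset.sum_add_distrib, Finset.sum_ite_eq', Finset.sum_ite_eq',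
      if_pos (Finset.mem_Icc.2 ⟨le_rfl, by omega⟩), if_pos (Finset.mem_Icc.2 ⟨by omega, by omega⟩),
      Finset.sum_const, Nat.card_Icc, nsmul_eq_mul]
    simp
  have hgoal : ∑ b ∈ Icc 1 m, ((b + 1).factorial : ℝ) / y ^ b = ∑ b ∈ Icc 1 m, A b := by
    rw [hA]
  rw [hgoal]
  refine hsum.trans ?_
  have a1 : A 1 = 2 / y := by rw [hA]; norm_num [Nat.factorial]
  have a2 : A 2 = 6 / y ^ 2 := by rw [hA]; norm_num [Nat.factorial]
  have a3 : A 3 = 24 / y ^ 3 := by rw [hA]; norm_num [Nat.factorial]
  obtain ⟨z, hz⟩ : ∃ z : ℝ, z = 1 / y := ⟨_, rfl⟩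
  obtain ⟨u, hu⟩ : ∃ u : ℝ, u = 1 / (m : ℝ) := ⟨_, rfl⟩
  have hz0 : 0 < z := by rw [hz]; positivity
  have hu0 : 0 < u := by rw [hu]; positivity
  have hzu : z ≤ 3 * u := by
    rw [hz, hu, div_le_iff₀ hy0]
    have h5 : 3 * (1 / (m : ℝ)) * y = 3 * y / m := by ring
    rw [h5, le_div_iff₀ hmpos]
    linarith
  have huz : u ≤ z := by
    rw [hz, hu]
    exact one_div_le_one_div_of_le hy0 hyup
  have hu1 : u ≤ 1 := by
    rw [hu, div_le_one hmpos]
    linarith
  have b1 : (m : ℝ) * (A 3 + A m) ≤ 24 * 9 * (z * u) + 6 * (z * u) := by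
    have c1 : (m : ℝ) * A 3 ≤ 24 * 9 * (z * u) := by
      have : (m : ℝ) * A 3 = 24 * z * (z * z * m) := by
        rw [a3, hz]
        field_simp
      rw [this]
      have c2 : z * z * m ≤ 9 * u := by
        have c3 : z * z ≤ 3 * u * (3 * u) := mul_le_mul hzu hzu hz0.le (by positivity)
        have c4 : z * z * m ≤ 3 * u * (3 * u) * m := mul_le_mul_of_nonneg_right c3 hmpos.le
        have c5 : 3 * u * (3 * u) * m = 9 * u := by
          rw [hu]
          field_simp
          ring
        linarith
      nlinarith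
    have c2 : (m : ℝ) * A m ≤ 6 * (z * u) := by
      have c3 : (m : ℝ) * A m ≤ m * (6 / (m : ℝ) ^ 4) := mul_le_mul_of_nonneg_left hAm hmpos.le
      have c4 : (m : ℝ) * (6 / (m : ℝ) ^ 4) = 6 * (u * u * u) := by
        rw [hu]
        field_simp
      rw [c4] at c3
      have c5 : u * u * u ≤ z * u := by
        have : u * u ≤ z := by nlinarith
        exact mul_le_mul_of_nonneg_right this hu0.le
      linarith
    linarith
  have b2 : A 2 ≤ 18 * (z * u) := by
    have : A 2 = 6 * (z * z) := by
      rw [a2, hz]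
      field_simp
    rw [this]
    nlinarith
  have b3 : 2 / y * (1 + 120 / m) = 2 * z + 240 * (z * u) := by
    rw [hz, hu]
    ring
  have b4 : A 1 = 2 * z := by rw [a1, hz]; ring
  rw [b3, b4]
  linarith

theorem U_le (n m : ℕ) (hm : 1 ≤ m) (y : ℝ) (hy : 0 < y) (hn : 1 ≤ n) (r : ℕ) (hr : r ≤ m) :
    (n : ℝ) ^ (m + r) * r.factorial * y ^ m * (2 / y) ^ r / ((m + r).factorial : ℝ) ^ 2 ≤
      max ((n : ℝ) ^ m * y ^ m / (m.factorial : ℝ) ^ 2)
        ((n : ℝ) ^ (m + m) * m.factorial * 2 ^ m / ((m + m).factorial : ℝ) ^ 2) := by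
  have hn' : (0 : ℝ) < n := by exact_mod_cast hn
  have key := max_lem (fun r => (n : ℝ) ^ (m + r) * r.factorial * y ^ m * (2 / y) ^ r /
      ((m + r).factorial : ℝ) ^ 2)
    (fun j => n * (2 / y) * (((j : ℝ) + 1) / ((m : ℝ) + j + 1) ^ 2)) 0 m (fun j => by positivity)
    ?_ ?_ r (Nat.zero_le _) hr
  · refine key.trans (le_of_eq ?_)
    congr 1
    · simp
    · have : y ^ m * (2 / y) ^ m = 2 ^ m := by
        rw [← mul_pow, mul_div_cancel₀ _ hy.ne']
      rw [mul_assoc, this]
  · intro j _ _
    rw [← Nat.add_assoc, Nat.factorial_succ (m + j), Nat.factorial_succ j, pow_succ, pow_succ]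
    push_cast
    field_simp
  · intro i j _ hij hjm
    have h1 : (i : ℝ) ≤ j := by exact_mod_cast hij
    have h2 : (j : ℝ) + 1 ≤ m := by exact_mod_cast hjm
    have h3 : (0 : ℝ) ≤ i := Nat.cast_nonneg i
    refine mul_le_mul_of_nonneg_left ?_ (by positivity)
    rw [div_le_div_iff₀ (by positivity) (by positivity)]
    have h4 : 0 ≤ ((j : ℝ) - i) * ((m : ℝ) * m - ((i : ℝ) + 1) * (j + 1)) := by
      refine mul_nonneg (by linarith) ?_
      have h5 : ((i : ℝ) + 1) * (j + 1) ≤ m * m :=
        mul_le_mul (by linarith) h2 (by positivity) (by positivity)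
      linarith
    nlinarith

theorem t_UPPER : S_UPPER := by
  obtain ⟨m₀, hm₀, hS⟩ := S_le
  refine ⟨m₀ + 1, 200, fun t ht ht1 n m hn hm => ?_⟩
  have htR : (1 : ℝ) ≤ t := by exact_mod_cast ht1
  have hmm : m₀ ≤ m := by omega
  have hm3 : 3 ≤ m := hm₀.trans hmm
  have hmpos : (0 : ℝ) < m := by
    have : 0 < m := by omega
    exact_mod_cast this
  have hmn : m + 1 ≤ n := by
    rw [hn, hm]
    nlinarith
  have hn1 : 1 ≤ n := by omega
  have hnpos : (0 : ℝ) < n := by exact_mod_cast hn1
  have he : (0 : ℝ) < Real.exp 1 := Real.exp_pos 1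
  obtain ⟨y, hy⟩ : ∃ y : ℝ, y = (1 + 1 / 20000) * m / Real.exp 1 := ⟨_, rfl⟩
  have hy0 : 0 < y := by rw [hy]; positivity
  have hlogy : Real.log y ≤ 1 / 20000 + Real.log m - 1 := by
    rw [hy, Real.log_div (by positivity) he.ne', Real.log_mul (by norm_num) hmpos.ne', Real.log_exp]
    have := Real.log_le_sub_one_of_pos (show (0 : ℝ) < 1 + 1 / 20000 by norm_num)
    linarith
  obtain ⟨S, hSdef⟩ : ∃ S : ℝ, S = ∑ b ∈ Icc 1 m, ((b + 1).factorial : ℝ) / y ^ b := ⟨_, rfl⟩
  have hS1 : S ≤ 2 / y * (1 + 120 / m) := by rw [hSdef]; exact hS m hmm y hy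
  have hS0 : 0 ≤ S := by rw [hSdef]; positivity
  obtain ⟨M, hM⟩ : ∃ M : ℝ, M = max ((n : ℝ) ^ m * y ^ m / (m.factorial : ℝ) ^ 2)
        ((n : ℝ) ^ (m + m) * m.factorial * 2 ^ m / ((m + m).factorial : ℝ) ^ 2) := ⟨_, rfl⟩
  have hM0 : 0 < M := by
    rw [hM]
    exact lt_max_of_lt_left (by positivity)
  -- the terms
  have hterm : ∀ r ∈ Icc 1 m, (n.choose (m + r) : ℝ) * r.factorial * W m r / (m + r).factorial ≤
      Real.exp 120 * M := by
    intro r hr
    rw [Finset.mem_Icc] at hr
    have h1 : (n.choose (m + r) : ℝ) ≤ (n : ℝ) ^ (m + r) / (m + r).factorial := by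
      have := Nat.choose_le_pow_div (α := ℝ) (m + r) n
      exact this
    have h2 : (W m r : ℝ) ≤ y ^ m * ((2 / y) ^ r * Real.exp 120) := by
      refine (W_le m r y hy0).trans (mul_le_mul_of_nonneg_left ?_ (by positivity))
      rw [← hSdef]
      calc S ^ r ≤ (2 / y * (1 + 120 / m)) ^ r := pow_le_pow_left₀ hS0 hS1 r
        _ = (2 / y) ^ r * (1 + 120 / m) ^ r := mul_pow _ _ _
        _ ≤ (2 / y) ^ r * Real.exp 120 := by
            refine mul_le_mul_of_nonneg_left ?_ (by positivity)
            calc (1 + 120 / (m : ℝ)) ^ r ≤ (Real.exp (120 / m)) ^ r := by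
                  refine pow_le_pow_left₀ (by positivity) ?_ r
                  have := Real.add_one_le_exp (120 / (m : ℝ))
                  linarith
              _ = Real.exp (r * (120 / m)) := by rw [← Real.exp_nat_mul]
              _ ≤ Real.exp 120 := by
                  apply Real.exp_le_exp.2
                  have h3 : (r : ℝ) ≤ m := by exact_mod_cast hr.2
                  calc (r : ℝ) * (120 / m) ≤ m * (120 / m) :=
                        mul_le_mul_of_nonneg_right h3 (by positivity)
                    _ = 120 := by field_simp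
    have h3 := U_le n m (by omega) y hy0 hn1 r hr.2
    rw [← hM] at h3
    calc (n.choose (m + r) : ℝ) * r.factorial * W m r / (m + r).factorial
        ≤ ((n : ℝ) ^ (m + r) / (m + r).factorial) * r.factorial *
          (y ^ m * ((2 / y) ^ r * Real.exp 120)) / (m + r).factorial := by
          refine div_le_div_of_nonneg_right ?_ (by positivity)
          refine mul_le_mul ?_ h2 (by positivity) (by positivity)
          exact mul_le_mul_of_nonneg_right h1 (by positivity)
      _ = Real.exp 120 * ((n : ℝ) ^ (m + r) * r.factorial * y ^ m * (2 / y) ^ r /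
          ((m + r).factorial : ℝ) ^ 2) := by
          field_simp
      _ ≤ Real.exp 120 * M := mul_le_mul_of_nonneg_left h3 (Real.exp_pos _).le
  have hsum : ∑ r ∈ Icc 1 m, (n.choose (m + r) : ℝ) * r.factorial * W m r / (m + r).factorial ≤
      m * (Real.exp 120 * M) := by
    refine (Finset.sum_le_card_nsmul _ _ _ hterm).trans (le_of_eq ?_)
    rw [Nat.card_Icc, nsmul_eq_mul]
    simp
  have hpos : 0 < ∑ r ∈ Icc 1 m, (n.choose (m + r) : ℝ) * r.factorial * W m r /
      (m + r).factorial := by
    have h1m : 1 ≤ m := by omega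
    have h1 : (0 : ℝ) < (n.choose (m + 1) : ℝ) * (1 : ℕ).factorial * W m 1 / (m + 1).factorial := by
      have h2 : 0 < W m 1 := by
        unfold W
        refine Finset.sum_pos (fun b _ => Finset.prod_pos fun i _ => Nat.factorial_pos _) ?_
        refine ⟨fun _ => m, ?_⟩
        rw [Finset.mem_filter, Finset.mem_piAntidiag]
        exact ⟨⟨by simp, fun i _ => Finset.mem_univ i⟩, fun i => h1m⟩
      have h3 : 0 < n.choose (m + 1) := Nat.choose_pos hmn
      have h2' : (0 : ℝ) < W m 1 := by exact_mod_cast h2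
      have h3' : (0 : ℝ) < n.choose (m + 1) := by exact_mod_cast h3
      positivity
    refine lt_of_lt_of_le h1 (Finset.single_le_sum (f := fun r : ℕ =>
      (n.choose (m + r) : ℝ) * r.factorial * W m r / (m + r).factorial)
      (fun r _ => by positivity) (Finset.mem_Icc.2 ⟨le_rfl, h1m⟩))
  have hlog := Real.log_le_log hpos hsum
  rw [Real.log_mul hmpos.ne' (by positivity), Real.log_mul (Real.exp_pos _).ne' hM0.ne',
    Real.log_exp] at hlog
  -- logarithms
  have hlogm : Real.log m ≤ 5 + Real.log t := by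
    have h1 : (m : ℝ) = 97 * t := by rw [hm]; push_cast; ring
    rw [h1, Real.log_mul (by norm_num) (by positivity)]
    have h2 : Real.log 97 ≤ 5 := by
      rw [Real.log_le_iff_le_exp (by norm_num)]
      have h3 : Real.exp 5 = (Real.exp 1) ^ 5 := by
        rw [← Real.exp_nat_mul]
        norm_num
      rw [h3]
      have h4 : (2.7 : ℝ) ≤ Real.exp 1 := by linarith [Real.exp_one_gt_d9]
      calc (97 : ℝ) ≤ 2.7 ^ 5 := by norm_num
        _ ≤ _ := pow_le_pow_left₀ (by norm_num) h4 5
    linarith
  have hlogt : 0 ≤ Real.log t := Real.log_nonneg htR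
  have hlogm0 : 0 ≤ Real.log m := Real.log_nonneg (by
    have : 1 ≤ m := by omega
    exact_mod_cast this)
  have hMle : Real.log M ≤ m * (Real.log n - Real.log m + 1 + 1 / 10000) + Real.log m + 1 := by
    rw [hM]
    rcases max_choice ((n : ℝ) ^ m * y ^ m / (m.factorial : ℝ) ^ 2)
        ((n : ℝ) ^ (m + m) * m.factorial * 2 ^ m / ((m + m).factorial : ℝ) ^ 2) with h | h
    · rw [h, Real.log_div (by positivity) (by positivity), Real.log_mul (by positivity)
        (by positivity), Real.log_pow, Real.log_pow, Real.log_pow]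
      have h1 := log_fact_ge m
      have h2 : (m : ℝ) * Real.log y ≤ m * (1 / 20000 + Real.log m - 1) :=
        mul_le_mul_of_nonneg_left hlogy hmpos.le
      push_cast
      nlinarith
    · rw [h, Real.log_div (by positivity) (by positivity), Real.log_mul (by positivity)
        (by positivity), Real.log_mul (by positivity) (by positivity), Real.log_pow, Real.log_pow,
        Real.log_pow]
      have h1 := log_fact_ge (m + m)
      have h2 := log_fact_le m (by omega)
      have h3 : Real.log ((m + m : ℕ) : ℝ) = Real.log 2 + Real.log m := by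
        rw [← Real.log_mul (by norm_num) hmpos.ne']
        congr 1
        push_cast
        ring
      rw [h3] at h1
      have h4 : Real.log n - 2 * Real.log m ≤ 2 * (3 / 97) := by
        have h5 : (n : ℝ) = (100 * t) ^ 2 := by rw [hn]; push_cast; ring
        have h6 : (m : ℝ) = 97 * t := by rw [hm]; push_cast; ring
        rw [h5, h6, Real.log_pow]
        have h7 : Real.log (100 * (t : ℝ)) - Real.log (97 * t) ≤ 3 / 97 := by
          rw [← Real.log_div (by positivity) (by positivity)]
          have h8 : 100 * (t : ℝ) / (97 * t) = 100 / 97 := by field_simp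
          rw [h8]
          have := Real.log_le_sub_one_of_pos (show (0 : ℝ) < 100 / 97 by norm_num)
          linarith
        push_cast
        linarith
      have h5 := Real.log_two_gt_d9
      push_cast at h1 ⊢
      nlinarith
  linarith

end Pool.Agent.V7H84.CC
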