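import Pool.Agent.V7H41.CC.Spec3
import Pool.Agent.V7H84.CC.UPPER

/-!
# Minimum common convex partition counts of caterpillars: the estimate of the average, all large `n`
-/

set_option autoImplicit false

open Finset Pool.Agent.V7H41.CC

namespace Pool.Agent.V7H84.CC

theorem t_UPPER3 : S_UPPER3 := by
  obtain ⟨m₀, hm₀, hS⟩ := S_le
  refine ⟨m₀ + 200, 200, fun t ht ht1 n m hn hn2 hm => ?_⟩
  have htR : (1 : ℝ) ≤ t := by exact_mod_cast ht1
  have hmm : m₀ ≤ m := by omega
  have hm3 : 3 ≤ m := hm₀.trans hmm
  have hmpos : (0 : ℝ) < m := by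
    have : 0 < m := by omega
    exact_mod_cast this
  have hmn : m + 1 ≤ n := by
    refine le_trans ?_ hn
    rw [hm]
    nlinarith
  have hn1 : 1 ≤ n := by omega
  have hnpos : (0 : ℝ) < n := by exact_mod_cast hn1
  have he : (0 : ℝ) < Real.exp 1 := Real.exp_pos 1
  obtain ⟨y, hy⟩ : ∃ y : ℝ, y = (1 + 1 / 20000) * m / Real.exp 1 := ⟨_, rfl⟩
  have hy0 : 0 < y := by rw [hy]; positivity
  have hlogy : Real.log y ≤ 1 / 20000 + Real.log m - 1 := by
    rw [hy, Real.log_div (by positivity) he.ne', Real.log_mul (by norm_num) hmpos.ne', Real.log_exp]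
    have := Real.log_le_sub_one_of_pos (show (0 : ℝ) < 1 + 1 / 20000 by norm_num)
    linarith
  obtain ⟨S, hSdef⟩ : ∃ S : ℝ, S = ∑ b ∈ Icc 1 m, ((b + 1).factorial : ℝ) / y ^ b := ⟨_, rfl⟩
  have hS1 : S ≤ 2 / y * (1 + 120 / m) := by rw [hSdef]; exact hS m hmm y hy
  have hS0 : 0 ≤ S := by rw [hSdef]; positivity
  obtain ⟨M, hM⟩ : ∃ M : ℝ, M = max ((n : ℝ) ^ m * y ^ m / (m.factorial : ℝ) ^ 2)
        ((n : ℝ) ^ (m + m) * m.factorial * 2 ^ m / ((m + m).factorial : ℝ) ^ 2) := ⟨_, rfl⟩
  have hM0 : 0 < M := by
    rw [hM]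
    exact lt_max_of_lt_left (by positivity)
  -- the terms
  have hterm : ∀ r ∈ Icc 1 m, (n.choose (m + r) : ℝ) * r.factorial * W m r / (m + r).factorial ≤
      Real.exp 120 * M := by
    intro r hr
    rw [Finset.mem_Icc] at hr
    have h1 : (n.choose (m + r) : ℝ) ≤ (n : ℝ) ^ (m + r) / (m + r).factorial := by
      have := Nat.choose_le_pow_div (α := ℝ) (m + r) n
      exact this
    have h2 : (W m r : ℝ) ≤ y ^ m * ((2 / y) ^ r * Real.exp 120) := by
      refine (W_le m r y hy0).trans (mul_le_mul_of_nonneg_left ?_ (by positivity))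
      rw [← hSdef]
      calc S ^ r ≤ (2 / y * (1 + 120 / m)) ^ r := pow_le_pow_left₀ hS0 hS1 r
        _ = (2 / y) ^ r * (1 + 120 / m) ^ r := mul_pow _ _ _
        _ ≤ (2 / y) ^ r * Real.exp 120 := by
            refine mul_le_mul_of_nonneg_left ?_ (by positivity)
            calc (1 + 120 / (m : ℝ)) ^ r ≤ (Real.exp (120 / m)) ^ r := by
                  refine pow_le_pow_left₀ (by positivity) ?_ r
                  have := Real.add_one_le_exp (120 / (m : ℝ))
                  linarith
              _ = Real.exp (r * (120 / m)) := by rw [← Real.exp_nat_mul]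
              _ ≤ Real.exp 120 := by
                  apply Real.exp_le_exp.2
                  have h3 : (r : ℝ) ≤ m := by exact_mod_cast hr.2
                  calc (r : ℝ) * (120 / m) ≤ m * (120 / m) :=
                        mul_le_mul_of_nonneg_right h3 (by positivity)
                    _ = 120 := by field_simp
    have h3 := U_le n m (by omega) y hy0 hn1 r hr.2
    rw [← hM] at h3
    calc (n.choose (m + r) : ℝ) * r.factorial * W m r / (m + r).factorial
        ≤ ((n : ℝ) ^ (m + r) / (m + r).factorial) * r.factorial *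
          (y ^ m * ((2 / y) ^ r * Real.exp 120)) / (m + r).factorial := by
          refine div_le_div_of_nonneg_right ?_ (by positivity)
          refine mul_le_mul ?_ h2 (by positivity) (by positivity)
          exact mul_le_mul_of_nonneg_right h1 (by positivity)
      _ = Real.exp 120 * ((n : ℝ) ^ (m + r) * r.factorial * y ^ m * (2 / y) ^ r /
          ((m + r).factorial : ℝ) ^ 2) := by
          field_simp
      _ ≤ Real.exp 120 * M := mul_le_mul_of_nonneg_left h3 (Real.exp_pos _).le
  have hsum : ∑ r ∈ Icc 1 m, (n.choose (m + r) : ℝ) * r.factorial * W m r / (m + r).factorial ≤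
      m * (Real.exp 120 * M) := by
    refine (Finset.sum_le_card_nsmul _ _ _ hterm).trans (le_of_eq ?_)
    rw [Nat.card_Icc, nsmul_eq_mul]
    simp
  have hpos : 0 < ∑ r ∈ Icc 1 m, (n.choose (m + r) : ℝ) * r.factorial * W m r /
      (m + r).factorial := by
    have h1m : 1 ≤ m := by omega
    have h1 : (0 : ℝ) < (n.choose (m + 1) : ℝ) * (1 : ℕ).factorial * W m 1 / (m + 1).factorial := by
      have h2 : 0 < W m 1 := by
        unfold W
        refine Finset.sum_pos (fun b _ => Finset.prod_pos fun i _ => Nat.factorial_pos _) ?_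
        refine ⟨fun _ => m, ?_⟩
        rw [Finset.mem_filter, Finset.mem_piAntidiag]
        exact ⟨⟨by simp, fun i _ => Finset.mem_univ i⟩, fun i => h1m⟩
      have h3 : 0 < n.choose (m + 1) := Nat.choose_pos hmn
      have h2' : (0 : ℝ) < W m 1 := by exact_mod_cast h2
      have h3' : (0 : ℝ) < n.choose (m + 1) := by exact_mod_cast h3
      positivity
    refine lt_of_lt_of_le h1 (Finset.single_le_sum (f := fun r : ℕ =>
      (n.choose (m + r) : ℝ) * r.factorial * W m r / (m + r).factorial)
      (fun r _ => by positivity) (Finset.mem_Icc.2 ⟨le_rfl, h1m⟩))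
  have hlog := Real.log_le_log hpos hsum
  rw [Real.log_mul hmpos.ne' (by positivity), Real.log_mul (Real.exp_pos _).ne' hM0.ne',
    Real.log_exp] at hlog
  -- logarithms
  have hlogm : Real.log m ≤ 5 + Real.log t := by
    have h1 : (m : ℝ) = 97 * t := by rw [hm]; push_cast; ring
    rw [h1, Real.log_mul (by norm_num) (by positivity)]
    have h2 : Real.log 97 ≤ 5 := by
      rw [Real.log_le_iff_le_exp (by norm_num)]
      have h3 : Real.exp 5 = (Real.exp 1) ^ 5 := by
        rw [← Real.exp_nat_mul]
        norm_num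
      rw [h3]
      have h4 : (2.7 : ℝ) ≤ Real.exp 1 := by linarith [Real.exp_one_gt_d9]
      calc (97 : ℝ) ≤ 2.7 ^ 5 := by norm_num
        _ ≤ _ := pow_le_pow_left₀ (by norm_num) h4 5
    linarith
  have hlogt : 0 ≤ Real.log t := Real.log_nonneg htR
  have hlogm0 : 0 ≤ Real.log m := Real.log_nonneg (by
    have : 1 ≤ m := by omega
    exact_mod_cast this)
  have hMle : Real.log M ≤ m * (Real.log n - Real.log m + 1 + 1 / 10000) + Real.log m + 1 := by
    rw [hM]
    rcases max_choice ((n : ℝ) ^ m * y ^ m / (m.factorial : ℝ) ^ 2)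
        ((n : ℝ) ^ (m + m) * m.factorial * 2 ^ m / ((m + m).factorial : ℝ) ^ 2) with h | h
    · rw [h, Real.log_div (by positivity) (by positivity), Real.log_mul (by positivity)
        (by positivity), Real.log_pow, Real.log_pow, Real.log_pow]
      have h1 := log_fact_ge m
      have h2 : (m : ℝ) * Real.log y ≤ m * (1 / 20000 + Real.log m - 1) :=
        mul_le_mul_of_nonneg_left hlogy hmpos.le
      push_cast
      nlinarith
    · rw [h, Real.log_div (by positivity) (by positivity), Real.log_mul (by positivity)
        (by positivity), Real.log_mul (by positivity) (by positivity), Real.log_pow, Real.log_pow,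
        Real.log_pow]
      have h1 := log_fact_ge (m + m)
      have h2 := log_fact_le m (by omega)
      have h3 : Real.log ((m + m : ℕ) : ℝ) = Real.log 2 + Real.log m := by
        rw [← Real.log_mul (by norm_num) hmpos.ne']
        congr 1
        push_cast
        ring
      rw [h3] at h1
      have h4 : Real.log n - 2 * Real.log m ≤ 2 * (3 / 97 + 1 / 180) := by
        have h5 : (n : ℝ) ≤ (100 * (t + 1)) ^ 2 := by
          have : n ≤ (100 * (t + 1)) ^ 2 := hn2.le
          exact_mod_cast this
        have h6 : (m : ℝ) = 97 * t := by rw [hm]; push_cast; ring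
        have h5' := Real.log_le_log hnpos h5
        rw [Real.log_pow] at h5'
        have ht200 : (200 : ℝ) ≤ t := by
          have : 200 ≤ t := by omega
          exact_mod_cast this
        have h7 : Real.log (100 * ((t : ℝ) + 1)) - Real.log (97 * t) ≤ 3 / 97 + 1 / 180 := by
          rw [← Real.log_div (by positivity) (by positivity)]
          have h8 := Real.log_le_sub_one_of_pos (show (0 : ℝ) < 100 * ((t : ℝ) + 1) / (97 * t) by
            positivity)
          have h9 : 100 * ((t : ℝ) + 1) / (97 * t) ≤ 1 + (3 / 97 + 1 / 180) := by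
            rw [div_le_iff₀ (by positivity)]
            nlinarith
          linarith
        rw [h6]
        push_cast at h5'
        linarith
      have h5 := Real.log_two_gt_d9
      push_cast at h1 ⊢
      nlinarith
  linarith

end Pool.Agent.V7H84.CC
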