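import Pool.Agent.V7H41.CC.Spec2

/-!
# Minimum common convex partition counts of caterpillars: the elementary bound for `W`
-/

set_option autoImplicit false

open Finset Pool.Agent.V7H41.CC

namespace Pool.Agent.V7H84.CC

theorem W_succ (m r : ℕ) :
    W m (r + 1) = ∑ a ∈ Icc 1 (m - r), (a + 1).factorial * W (m - a) r := by
  unfold W
  simp only [Finset.mul_sum]
  rw [Finset.sum_sigma']
  refine Finset.sum_nbij' (fun b => (⟨b 0, fun i => b i.succ⟩ : Σ _ : ℕ, (Fin r → ℕ)))
    (fun p => (Fin.cons p.1 p.2 : Fin (r + 1) → ℕ)) ?_ ?_ ?_ ?_ ?_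
  · intro b hb
    rw [Finset.mem_filter, Finset.mem_piAntidiag] at hb
    obtain ⟨⟨hb1, -⟩, hb2⟩ := hb
    rw [Fin.sum_univ_succ] at hb1
    have h1 : r ≤ ∑ i : Fin r, b i.succ := by
      have := Finset.card_nsmul_le_sum (univ : Finset (Fin r)) (fun i => b i.succ) 1
        (fun i _ => hb2 i.succ)
      simpa using this
    have h2 := hb2 0
    rw [Finset.mem_sigma, Finset.mem_filter, Finset.mem_piAntidiag, Finset.mem_Icc]
    refine ⟨⟨h2, ?_⟩, ⟨?_, fun i _ => Finset.mem_univ i⟩, fun i => hb2 i.succ⟩
    · simp only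
      omega
    · simp only
      omega
  · intro p hp
    rw [Finset.mem_sigma, Finset.mem_filter, Finset.mem_piAntidiag, Finset.mem_Icc] at hp
    obtain ⟨⟨h1, h2⟩, ⟨h3, -⟩, h4⟩ := hp
    rw [Finset.mem_filter, Finset.mem_piAntidiag]
    refine ⟨⟨?_, fun i _ => Finset.mem_univ i⟩, ?_⟩
    · have h5 : ∑ i : Fin r, p.2 i = m - p.1 := h3
      rw [Fin.sum_univ_succ]
      simp only [Fin.cons_zero, Fin.cons_succ]
      omega
    · intro i
      refine Fin.cases ?_ (fun j => ?_) i
      · simpa using h1
      · simpa using h4 j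
  · intro b _
    funext i
    refine Fin.cases ?_ (fun j => ?_) i
    · simp
    · simp
  · intro p _
    simp
  · intro b _
    rw [Fin.prod_univ_succ]

theorem t_WB (hF : S_FACT) : S_WB := by
  intro m r hr
  induction r, hr using Nat.le_induction generalizing m with
  | base =>
    intro hm
    rw [W_succ]
    have h0 : ∀ k : ℕ, W k 0 = if k = 0 then 1 else 0 := by
      intro k
      unfold W
      split_ifs with h
      · subst h
        rw [Finset.filter_true_of_mem (fun _ _ i => i.elim0)]
        simp
      · have : Finset.piAntidiag (univ : Finset (Fin 0)) k = ∅ := by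
          ext b
          rw [Finset.mem_piAntidiag]
          simp only [Finset.univ_eq_empty, Finset.sum_empty, Finset.notMem_empty, iff_false]
          rintro ⟨h1, -⟩
          exact h h1.symm
        rw [this]
        simp
    have h1 : ∑ a ∈ Icc 1 (m - 0), (a + 1).factorial * W (m - a) 0 = (m + 1).factorial := by
      rw [Finset.sum_eq_single m]
      · rw [h0]
        simp
      · intro a ha ham
        rw [Finset.mem_Icc] at ha
        rw [h0, if_neg (by omega)]
        simp
      · intro h
        exact absurd (Finset.mem_Icc.2 ⟨hm, by omega⟩) h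
    rw [h1]
    simp only [Nat.sub_self, pow_zero, one_mul]
    rw [show m - 1 + 2 = m + 1 by omega]
  | succ r hr ih =>
    intro hm
    rw [W_succ]
    have h1 : ∑ a ∈ Icc 1 (m - r), (a + 1).factorial * W (m - a) r ≤
        ∑ a ∈ Icc 1 (m - r), 7 ^ (r - 1) * ((a + 1).factorial * (m - r + 3 - (a + 1)).factorial) := by
      refine Finset.sum_le_sum fun a ha => ?_
      rw [Finset.mem_Icc] at ha
      have h2 := ih (m - a) (by omega)
      calc (a + 1).factorial * W (m - a) r ≤
            (a + 1).factorial * (7 ^ (r - 1) * (m - a - r + 2).factorial) :=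
            Nat.mul_le_mul_left _ h2
        _ = 7 ^ (r - 1) * ((a + 1).factorial * (m - r + 3 - (a + 1)).factorial) := by
            rw [show m - a - r + 2 = m - r + 3 - (a + 1) by omega]
            ring
    refine h1.trans ?_
    rw [← Finset.mul_sum]
    have h3 : ∑ a ∈ Icc 1 (m - r), (a + 1).factorial * (m - r + 3 - (a + 1)).factorial =
        ∑ a ∈ Icc 2 (m - r + 3 - 2), a.factorial * (m - r + 3 - a).factorial := by
      rw [show m - r + 3 - 2 = m - r + 1 by omega]
      refine Finset.sum_nbij' (fun a => a + 1) (fun a => a - 1) ?_ ?_ ?_ ?_ ?_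
      · intro a ha
        rw [Finset.mem_Icc] at ha ⊢
        omega
      · intro a ha
        rw [Finset.mem_Icc] at ha ⊢
        omega
      · intro a _
        simp
      · intro a ha
        rw [Finset.mem_Icc] at ha
        show a - 1 + 1 = a
        omega
      · intro a _
        rfl
    rw [h3]
    have h4 := hF (m - r + 3) (by omega)
    calc 7 ^ (r - 1) * ∑ a ∈ Icc 2 (m - r + 3 - 2), a.factorial * (m - r + 3 - a).factorial ≤
          7 ^ (r - 1) * (7 * (m - r + 3 - 2).factorial) := Nat.mul_le_mul_left _ h4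
      _ = 7 ^ (r + 1 - 1) * (m - (r + 1) + 2).factorial := by
          rw [show m - r + 3 - 2 = m - (r + 1) + 2 by omega, ← mul_assoc, ← pow_succ,
            show r - 1 + 1 = r + 1 - 1 by omega]

end Pool.Agent.V7H84.CC
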